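import Pool.Agent.Y703.QT12.Mom

/-! Project QT, task HZ3: mean value of the mollified `L`-functions on vertical lines, polynomial in
the height. -/

set_option autoImplicit false

namespace Pool.Agent.Y641.QTHZ3

open Complex MeasureTheory Filter Topology Set
open Pool.Agent.Y19.QT Pool.Agent.Y703.QT8 Pool.Agent.Y703.QT12
open Pool.Agent.H306R2.RZ (js Gk)
open scoped ENNReal ComplexConjugate

variable {Q : ℕ} {lam : ℕ → ℝ} (T : Twists Q lam)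

/-- the second moment on vertical lines, every `X ≥ 3` and every `1/2 ≤ σ ≤ 1`, every angle -/
theorem mean_ellt
    (H8b : ∀ {Q : ℕ} {lam : ℕ → ℝ} (T : Twists Q lam),
      ∃ C : ℝ, 0 < C ∧ ∀ (θ : ℝ) (d : ℤ) (σ σ' : ℝ), 0 < θ → θ < Real.pi / 2 →
        Squarefree d → 0 ≤ σ → σ ≤ 1 → σ' ≤ 1 → |σ - 1 / 2| ≤ σ' - 1 / 2 →
        ∫⁻ y : ℝ, ‖T.ell d (σ + y * I)‖ₑ ^ 2 *
            ENNReal.ofReal (Real.exp (-((Real.pi - 2 * θ) * |y|))) ≤
          ENNReal.ofReal (C * |(d : ℝ)| ^ (2 * (σ' - σ))) * NN σ' θ (T.q d)⁻¹ (T.Gf d))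
    (H11 : ∀ {Q : ℕ} {lam : ℕ → ℝ} (T : Twists Q lam), ∃ (C : ℝ) (A B : ℕ), 0 < C ∧
      ∀ (X : ℕ) (σ θ : ℝ), 3 ≤ X → 1 / 2 + 1 / Real.log X ≤ σ → σ ≤ 1 → th0 ≤ θ →
        θ < Real.pi / 2 →
        ∑ d ∈ sqf X, NN σ θ (T.q d)⁻¹ (T.Gf d) ≤
          ENNReal.ofReal (C * ((Real.pi / 2 - θ)⁻¹) ^ B * X * Real.log X ^ A)) :
    ∃ (C : ℝ) (A B : ℕ), 0 < C ∧ ∀ (X : ℕ) (σ θ : ℝ), 3 ≤ X → 1 / 2 ≤ σ → σ ≤ 1 → th0 ≤ θ →
      θ < Real.pi / 2 →
      ∑ d ∈ sqf X, ∫⁻ y : ℝ, ‖T.ell d (σ + y * I)‖ₑ ^ 2 *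
        ENNReal.ofReal (Real.exp (-((Real.pi - 2 * θ) * |y|))) ≤
      ENNReal.ofReal (C * ((Real.pi / 2 - θ)⁻¹) ^ B * X * Real.log X ^ A) := by
  have hpi := Real.pi_pos
  have p0 : 0 < th0 := by unfold th0; positivity
  obtain ⟨C8, hC8, h8⟩ := H8b T
  obtain ⟨C11, A, B, hC11, h11⟩ := H11 T
  refine ⟨C8 * Real.exp 2 * C11 * 3 * 3 ^ A, A, B, by positivity,
    fun X σ θ hX h0 hσ1 hθ0 hθ1 => ?_⟩
  have hδ : 0 < Real.pi / 2 - θ := by linarith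
  have hX0 : (0 : ℝ) < X := by exact_mod_cast (by omega : 0 < X)
  have hL := log_ge_one hX
  set X' : ℕ := max X 8 with hX'
  have hXX' : X ≤ X' := le_max_left _ _
  have h8X' : 8 ≤ X' := le_max_right _ _
  have hX'3 : 3 ≤ X' := by omega
  have hX'0 : (0 : ℝ) < X' := by exact_mod_cast (by omega : 0 < X')
  have hX'1 : (1 : ℝ) ≤ X' := by exact_mod_cast (by omega : 1 ≤ X')
  have hX'le : X' ≤ 3 * X := by rw [hX']; omega
  have hX'le' : (X' : ℝ) ≤ 3 * X := by exact_mod_cast hX'le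
  have hl8 : (2 : ℝ) < Real.log 8 := by
    have : Real.log 8 = 3 * Real.log 2 := by
      rw [show (8 : ℝ) = 2 ^ 3 by norm_num, Real.log_pow]; norm_num
    have := Real.log_two_gt_d9
    linarith
  have hL' : 2 ≤ Real.log X' := by
    have h2 : (8 : ℝ) ≤ X' := by exact_mod_cast h8X'
    have h3 : Real.log 8 ≤ Real.log X' := Real.log_le_log (by norm_num) h2
    linarith
  have hLL : Real.log X' ≤ 3 * Real.log X := by
    have h2 : Real.log X' ≤ Real.log (3 * X) := Real.log_le_log hX'0 hX'le'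
    have h3 : Real.log (3 * X) = Real.log 3 + Real.log X :=
      Real.log_mul (by norm_num) hX0.ne'
    have h4 : Real.log 3 ≤ 2 := by
      have := Real.log_le_sub_one_of_pos (show (0 : ℝ) < 3 by norm_num)
      linarith
    linarith
  have hL'0 : 0 < Real.log X' := by linarith
  have hsub : sqf X ⊆ sqf X' := by
    intro d hd
    rw [mem_sqf] at hd ⊢
    refine ⟨hd.1.trans ?_, hd.2⟩
    exact_mod_cast hXX'
  set σ' : ℝ := max σ (1 / 2 + 1 / Real.log X') with hσ'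
  have h2 : 1 / Real.log X' ≤ 1 / 2 := one_div_le_one_div_of_le (by norm_num) hL'
  have h3 : σ' ≤ 1 := by rw [hσ']; apply max_le <;> linarith
  have h4 : σ ≤ σ' := le_max_left _ _
  have h5 : 2 * (σ' - σ) ≤ 2 / Real.log X' := by
    have : σ' ≤ σ + 1 / Real.log X' := by
      rw [hσ']
      have : 0 < 1 / Real.log X' := by positivity
      apply max_le <;> linarith
    have e2 : 2 / Real.log X' = 2 * (1 / Real.log X') := by ring
    linarith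
  have h6 : (X' : ℝ) ^ (2 * (σ' - σ)) ≤ Real.exp 2 := by
    calc (X' : ℝ) ^ (2 * (σ' - σ)) ≤ (X' : ℝ) ^ (2 / Real.log X') :=
          Real.rpow_le_rpow_of_exponent_le hX'1 h5
      _ = Real.exp 2 := by
          rw [Real.rpow_def_of_pos hX'0]; congr 1; field_simp
  calc ∑ d ∈ sqf X, ∫⁻ y : ℝ, ‖T.ell d (σ + y * I)‖ₑ ^ 2 *
        ENNReal.ofReal (Real.exp (-((Real.pi - 2 * θ) * |y|)))
      ≤ ∑ d ∈ sqf X', ∫⁻ y : ℝ, ‖T.ell d (σ + y * I)‖ₑ ^ 2 *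
        ENNReal.ofReal (Real.exp (-((Real.pi - 2 * θ) * |y|))) :=
        Finset.sum_le_sum_of_subset hsub
    _ ≤ ∑ d ∈ sqf X', ENNReal.ofReal (C8 * Real.exp 2) * NN σ' θ (T.q d)⁻¹ (T.Gf d) := by
        refine Finset.sum_le_sum fun d hd => ?_
        refine (h8 θ d σ σ' (p0.trans_le hθ0) hθ1 (sqf_sqf hd) (by linarith) hσ1 h3
          (by rw [abs_of_nonneg (by linarith)]; linarith)).trans ?_
        gcongr
        refine le_trans ?_ h6
        exact Real.rpow_le_rpow (abs_nonneg _) (sqf_abs hd) (by linarith)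
    _ = ENNReal.ofReal (C8 * Real.exp 2) * ∑ d ∈ sqf X', NN σ' θ (T.q d)⁻¹ (T.Gf d) := by
        rw [Finset.mul_sum]
    _ ≤ ENNReal.ofReal (C8 * Real.exp 2) *
          ENNReal.ofReal (C11 * ((Real.pi / 2 - θ)⁻¹) ^ B * X' * Real.log X' ^ A) := by
        gcongr
        exact h11 X' σ' θ hX'3 (le_max_right _ _) h3 hθ0 hθ1
    _ = ENNReal.ofReal (C8 * Real.exp 2 *
          (C11 * ((Real.pi / 2 - θ)⁻¹) ^ B * X' * Real.log X' ^ A)) := by
        rw [← ENNReal.ofReal_mul (by positivity)]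
    _ ≤ _ := by
        apply ENNReal.ofReal_le_ofReal
        calc C8 * Real.exp 2 * (C11 * ((Real.pi / 2 - θ)⁻¹) ^ B * X' * Real.log X' ^ A)
            ≤ C8 * Real.exp 2 * (C11 * ((Real.pi / 2 - θ)⁻¹) ^ B * (3 * X) *
                (3 * Real.log X) ^ A) := by gcongr
          _ = _ := by rw [mul_pow]; ring

lemma exp_shift (t : ℝ) : ∫⁻ y : ℝ, ENNReal.ofReal (Real.exp (-|y - t|)) = 2 := by
  rw [← exp_int]
  exact lintegral_sub_right_eq_self (fun y : ℝ => ENNReal.ofReal (Real.exp (-|y|))) t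

/-- the angle attached to a height -/
noncomputable def thT (t : ℝ) : ℝ := Real.pi / 2 - Real.pi / (16 * (1 + |t|))

lemma thT_ge (t : ℝ) : th0 ≤ thT t := by
  unfold th0 thT
  have hpi := Real.pi_pos
  have : Real.pi / (16 * (1 + |t|)) ≤ Real.pi / 16 := by
    apply div_le_div_of_nonneg_left hpi.le (by norm_num)
    have := abs_nonneg t
    linarith
  linarith

lemma thT_lt (t : ℝ) : thT t < Real.pi / 2 := by
  unfold thT
  have hpi := Real.pi_pos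
  have := abs_nonneg t
  have : 0 < Real.pi / (16 * (1 + |t|)) := by positivity
  linarith

lemma thT_inv (t : ℝ) : (Real.pi / 2 - thT t)⁻¹ ≤ 16 * (1 + |t|) := by
  have hpi := Real.pi_gt_three
  have := abs_nonneg t
  have e : Real.pi / 2 - thT t = Real.pi / (16 * (1 + |t|)) := by unfold thT; ring
  rw [e, inv_div]
  rw [div_le_iff₀ (by linarith)]
  nlinarith

/-- comparison of the weights -/
lemma weight (t y : ℝ) : Real.exp (-|y - t|) ≤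
    Real.exp 1 * Real.exp (-((Real.pi - 2 * thT t) * |y|)) := by
  rw [← Real.exp_add]
  apply Real.exp_le_exp.2
  have hpi := Real.pi_pos
  have hpi4 := Real.pi_lt_four
  have ht := abs_nonneg t
  have e : Real.pi - 2 * thT t = Real.pi / (8 * (1 + |t|)) := by
    unfold thT
    field_simp
    ring
  rw [e]
  have h1 : |y| ≤ |y - t| + |t| := by
    have := abs_sub_abs_le_abs_sub y t
    linarith
  have h2 : |y| ≤ (|y - t| + 1) * (1 + |t|) := by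
    have := abs_nonneg (y - t)
    nlinarith
  have h3 : Real.pi / (8 * (1 + |t|)) * |y| ≤ Real.pi / 8 * (|y - t| + 1) := by
    rw [div_mul_eq_mul_div, div_le_iff₀ (by positivity)]
    calc Real.pi * |y| ≤ Real.pi * ((|y - t| + 1) * (1 + |t|)) := by gcongr
      _ = _ := by ring
  have h4 : Real.pi / 8 * (|y - t| + 1) ≤ 1 * (|y - t| + 1) := by
    gcongr
    linarith
  linarith

/-- the second moment with weight `e^{-|y-t|}`, as a lower integral -/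
theorem HZ3c
    (H8b : ∀ {Q : ℕ} {lam : ℕ → ℝ} (T : Twists Q lam),
      ∃ C : ℝ, 0 < C ∧ ∀ (θ : ℝ) (d : ℤ) (σ σ' : ℝ), 0 < θ → θ < Real.pi / 2 →
        Squarefree d → 0 ≤ σ → σ ≤ 1 → σ' ≤ 1 → |σ - 1 / 2| ≤ σ' - 1 / 2 →
        ∫⁻ y : ℝ, ‖T.ell d (σ + y * I)‖ₑ ^ 2 *
            ENNReal.ofReal (Real.exp (-((Real.pi - 2 * θ) * |y|))) ≤
          ENNReal.ofReal (C * |(d : ℝ)| ^ (2 * (σ' - σ))) * NN σ' θ (T.q d)⁻¹ (T.Gf d))
    (H11 : ∀ {Q : ℕ} {lam : ℕ → ℝ} (T : Twists Q lam), ∃ (C : ℝ) (A B : ℕ), 0 < C ∧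
      ∀ (X : ℕ) (σ θ : ℝ), 3 ≤ X → 1 / 2 + 1 / Real.log X ≤ σ → σ ≤ 1 → th0 ≤ θ →
        θ < Real.pi / 2 →
        ∑ d ∈ sqf X, NN σ θ (T.q d)⁻¹ (T.Gf d) ≤
          ENNReal.ofReal (C * ((Real.pi / 2 - θ)⁻¹) ^ B * X * Real.log X ^ A)) :
    ∃ (C : ℝ) (A B : ℕ), 0 < C ∧ ∀ (X : ℕ) (σ t : ℝ), 3 ≤ X → 1 / 2 ≤ σ → σ ≤ 1 →
      ∑ d ∈ sqf X, ∫⁻ y : ℝ, ‖T.ell d (σ + y * I)‖ₑ ^ 2 *
        ENNReal.ofReal (Real.exp (-|y - t|)) ≤
      ENNReal.ofReal (C * (1 + |t|) ^ B * X * Real.log X ^ A) := by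
  obtain ⟨C, A, B, hC, h⟩ := mean_ellt T H8b H11
  refine ⟨Real.exp 1 * C * 16 ^ B, A, B, by positivity, fun X σ t hX h0 h1 => ?_⟩
  have hL := log_ge_one hX
  have hX0 : (0 : ℝ) < X := by exact_mod_cast (by omega : 0 < X)
  have hd := thT_lt t
  have hδ : 0 < Real.pi / 2 - thT t := by linarith
  calc ∑ d ∈ sqf X, ∫⁻ y : ℝ, ‖T.ell d (σ + y * I)‖ₑ ^ 2 *
        ENNReal.ofReal (Real.exp (-|y - t|))
      ≤ ∑ d ∈ sqf X, ENNReal.ofReal (Real.exp 1) * ∫⁻ y : ℝ, ‖T.ell d (σ + y * I)‖ₑ ^ 2 *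
        ENNReal.ofReal (Real.exp (-((Real.pi - 2 * thT t) * |y|))) := by
        refine Finset.sum_le_sum fun d _ => ?_
        rw [← lintegral_const_mul' _ _ ENNReal.ofReal_ne_top]
        refine lintegral_mono fun y => ?_
        calc ‖T.ell d (σ + y * I)‖ₑ ^ 2 * ENNReal.ofReal (Real.exp (-|y - t|))
            ≤ ‖T.ell d (σ + y * I)‖ₑ ^ 2 * ENNReal.ofReal (Real.exp 1 *
              Real.exp (-((Real.pi - 2 * thT t) * |y|))) := by
              gcongr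
              exact weight t y
          _ = _ := by
              rw [ENNReal.ofReal_mul (Real.exp_pos _).le]
              ring
    _ = ENNReal.ofReal (Real.exp 1) * ∑ d ∈ sqf X, ∫⁻ y : ℝ, ‖T.ell d (σ + y * I)‖ₑ ^ 2 *
        ENNReal.ofReal (Real.exp (-((Real.pi - 2 * thT t) * |y|))) := by
        rw [Finset.mul_sum]
    _ ≤ ENNReal.ofReal (Real.exp 1) *
        ENNReal.ofReal (C * ((Real.pi / 2 - thT t)⁻¹) ^ B * X * Real.log X ^ A) := by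
        gcongr
        exact h X σ (thT t) hX h0 h1 (thT_ge t) hd
    _ = ENNReal.ofReal (Real.exp 1 *
        (C * ((Real.pi / 2 - thT t)⁻¹) ^ B * X * Real.log X ^ A)) := by
        rw [← ENNReal.ofReal_mul (by positivity)]
    _ ≤ _ := by
        apply ENNReal.ofReal_le_ofReal
        have h2 := thT_inv t
        calc Real.exp 1 * (C * ((Real.pi / 2 - thT t)⁻¹) ^ B * X * Real.log X ^ A)
            ≤ Real.exp 1 * (C * (16 * (1 + |t|)) ^ B * X * Real.log X ^ A) := by gcongr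
          _ = _ := by rw [mul_pow]; ring

/-- the second moment with weight `e^{-|y-t|}` -/
theorem HZ3b
    (H8b : ∀ {Q : ℕ} {lam : ℕ → ℝ} (T : Twists Q lam),
      ∃ C : ℝ, 0 < C ∧ ∀ (θ : ℝ) (d : ℤ) (σ σ' : ℝ), 0 < θ → θ < Real.pi / 2 →
        Squarefree d → 0 ≤ σ → σ ≤ 1 → σ' ≤ 1 → |σ - 1 / 2| ≤ σ' - 1 / 2 →
        ∫⁻ y : ℝ, ‖T.ell d (σ + y * I)‖ₑ ^ 2 *
            ENNReal.ofReal (Real.exp (-((Real.pi - 2 * θ) * |y|))) ≤
          ENNReal.ofReal (C * |(d : ℝ)| ^ (2 * (σ' - σ))) * NN σ' θ (T.q d)⁻¹ (T.Gf d))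
    (H11 : ∀ {Q : ℕ} {lam : ℕ → ℝ} (T : Twists Q lam), ∃ (C : ℝ) (A B : ℕ), 0 < C ∧
      ∀ (X : ℕ) (σ θ : ℝ), 3 ≤ X → 1 / 2 + 1 / Real.log X ≤ σ → σ ≤ 1 → th0 ≤ θ →
        θ < Real.pi / 2 →
        ∑ d ∈ sqf X, NN σ θ (T.q d)⁻¹ (T.Gf d) ≤
          ENNReal.ofReal (C * ((Real.pi / 2 - θ)⁻¹) ^ B * X * Real.log X ^ A)) :
    ∃ (C : ℝ) (A B : ℕ), 0 < C ∧ ∀ (X : ℕ) (σ t : ℝ), 3 ≤ X → 1 / 2 ≤ σ → σ ≤ 1 →
      ∑ d ∈ sqf X, ∫ y : ℝ, ‖T.ell d (σ + y * I)‖ ^ 2 * Real.exp (-|y - t|) ≤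
      C * (1 + |t|) ^ B * X * Real.log X ^ A := by
  obtain ⟨C, A, B, hC, h⟩ := HZ3c T H8b H11
  refine ⟨C, A, B, hC, fun X σ t hX h0 h1 => ?_⟩
  have hL := log_ge_one hX
  have hX0 : (0 : ℝ) < X := by exact_mod_cast (by omega : 0 < X)
  have hJ0 : ∀ d : ℤ, 0 ≤ ∫ y : ℝ, ‖T.ell d (σ + y * I)‖ ^ 2 * Real.exp (-|y - t|) :=
    fun d => integral_nonneg fun y => by positivity
  refine (ENNReal.ofReal_le_ofReal_iff (by positivity)).1 (le_trans ?_ (h X σ t hX h0 h1))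
  rw [ENNReal.ofReal_sum_of_nonneg (fun d _ => hJ0 d)]
  refine Finset.sum_le_sum fun d _ => ?_
  rw [← Real.norm_of_nonneg (hJ0 d), ofReal_norm]
  refine (enorm_integral_le_lintegral_enorm _).trans (lintegral_mono fun y => ?_)
  rw [enorm_mul, enorm_pow, enorm_norm, ← ofReal_norm (Real.exp (-|y - t|)),
    Real.norm_of_nonneg (Real.exp_pos _).le]

/-- HZ3 from H8b and H11 -/
theorem HZ3_of
    (H8b : ∀ {Q : ℕ} {lam : ℕ → ℝ} (T : Twists Q lam),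
      ∃ C : ℝ, 0 < C ∧ ∀ (θ : ℝ) (d : ℤ) (σ σ' : ℝ), 0 < θ → θ < Real.pi / 2 →
        Squarefree d → 0 ≤ σ → σ ≤ 1 → σ' ≤ 1 → |σ - 1 / 2| ≤ σ' - 1 / 2 →
        ∫⁻ y : ℝ, ‖T.ell d (σ + y * I)‖ₑ ^ 2 *
            ENNReal.ofReal (Real.exp (-((Real.pi - 2 * θ) * |y|))) ≤
          ENNReal.ofReal (C * |(d : ℝ)| ^ (2 * (σ' - σ))) * NN σ' θ (T.q d)⁻¹ (T.Gf d))
    (H11 : ∀ {Q : ℕ} {lam : ℕ → ℝ} (T : Twists Q lam), ∃ (C : ℝ) (A B : ℕ), 0 < C ∧
      ∀ (X : ℕ) (σ θ : ℝ), 3 ≤ X → 1 / 2 + 1 / Real.log X ≤ σ → σ ≤ 1 → th0 ≤ θ →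
        θ < Real.pi / 2 →
        ∑ d ∈ sqf X, NN σ θ (T.q d)⁻¹ (T.Gf d) ≤
          ENNReal.ofReal (C * ((Real.pi / 2 - θ)⁻¹) ^ B * X * Real.log X ^ A))
    {Q : ℕ} {lam : ℕ → ℝ} (T : Twists Q lam) : ∃ (C : ℝ) (A B : ℕ), 0 < C ∧
    ∀ (X Y : ℕ) (σ t : ℝ), 3 ≤ X → 1 ≤ Y → (Y : ℝ) ^ 4 ≤ X → 1 / 2 ≤ σ → σ ≤ 1 →
      ∑ d ∈ sqf X, ∫ y : ℝ, ‖T.Lq d (σ + y * I)‖ * ‖Mol Q lam Y d (σ + y * I)‖ *
        Real.exp (-|y - t|) ≤ C * (1 + |t|) ^ B * X * Real.log X ^ A := by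
  obtain ⟨C1, A1, B, hC1, h1⟩ := HZ3c T H8b H11
  obtain ⟨C2, A2, hC2, h2⟩ := Pool.Agent.Y141.QT12c2.T12c2 Q lam T.hecke
  have hc := c_pos T
  refine ⟨T.c ^ 2 * C1 + 2 * C2, A1 + A2, B, by positivity,
    fun X Y σ t hX hY hYX hσ0 hσ1 => ?_⟩
  have hX0 : (0 : ℝ) < X := by exact_mod_cast (by omega : 0 < X)
  have hL := log_ge_one hX
  have hY1 : (1 : ℝ) ≤ Y := by exact_mod_cast hY
  have ht1 : 1 ≤ 1 + |t| := by have := abs_nonneg t; linarith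
  have htB : 1 ≤ (1 + |t|) ^ B := one_le_pow₀ ht1
  have hJ0 : ∀ d : ℤ, 0 ≤ ∫ y : ℝ, ‖T.Lq d (σ + y * I)‖ * ‖Mol Q lam Y d (σ + y * I)‖ *
      Real.exp (-|y - t|) := fun d => integral_nonneg fun y => by positivity
  have hb : ENNReal.ofReal (∑ d ∈ sqf X, ∫ y : ℝ, ‖T.Lq d (σ + y * I)‖ *
        ‖Mol Q lam Y d (σ + y * I)‖ * Real.exp (-|y - t|)) ≤
      ENNReal.ofReal ((T.c ^ 2 * C1 + 2 * C2) * (1 + |t|) ^ B * X * Real.log X ^ (A1 + A2)) := by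
    have e1 : ENNReal.ofReal (∑ d ∈ sqf X, ∫ y : ℝ, ‖T.Lq d (σ + y * I)‖ *
        ‖Mol Q lam Y d (σ + y * I)‖ * Real.exp (-|y - t|)) ≤
        ∑ d ∈ sqf X, (∫⁻ y : ℝ, (‖T.Lq d (σ + y * I)‖ₑ ^ 2 +
          ‖Mol Q lam Y d (σ + y * I)‖ₑ ^ 2) * ENNReal.ofReal (Real.exp (-|y - t|))) := by
      rw [ENNReal.ofReal_sum_of_nonneg (fun d _ => hJ0 d)]
      refine Finset.sum_le_sum fun d _ => ?_
      have h3 : ENNReal.ofReal (∫ y : ℝ, ‖T.Lq d (σ + y * I)‖ * ‖Mol Q lam Y d (σ + y * I)‖ *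
          Real.exp (-|y - t|)) = ‖∫ y : ℝ, ‖T.Lq d (σ + y * I)‖ * ‖Mol Q lam Y d (σ + y * I)‖ *
          Real.exp (-|y - t|)‖ₑ := by
        rw [← ofReal_norm, Real.norm_of_nonneg (hJ0 d)]
      rw [h3]
      refine (enorm_integral_le_lintegral_enorm _).trans (lintegral_mono fun y => ?_)
      rw [enorm_mul, enorm_mul, enorm_norm, enorm_norm, ← ofReal_norm (Real.exp (-|y - t|)),
        Real.norm_of_nonneg (Real.exp_pos _).le]
      refine mul_le_mul' ?_ le_rfl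
      rcases le_total ‖T.Lq d (σ + y * I)‖ₑ ‖Mol Q lam Y d (σ + y * I)‖ₑ with h | h
      · calc ‖T.Lq d (σ + y * I)‖ₑ * ‖Mol Q lam Y d (σ + y * I)‖ₑ
            ≤ ‖Mol Q lam Y d (σ + y * I)‖ₑ * ‖Mol Q lam Y d (σ + y * I)‖ₑ := by gcongr
          _ = ‖Mol Q lam Y d (σ + y * I)‖ₑ ^ 2 := (sq _).symm
          _ ≤ _ := le_add_self
      · calc ‖T.Lq d (σ + y * I)‖ₑ * ‖Mol Q lam Y d (σ + y * I)‖ₑ
            ≤ ‖T.Lq d (σ + y * I)‖ₑ * ‖T.Lq d (σ + y * I)‖ₑ := by gcongr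
          _ = ‖T.Lq d (σ + y * I)‖ₑ ^ 2 := (sq _).symm
          _ ≤ _ := le_self_add
    have hmM : ∀ d : ℤ, Measurable fun y : ℝ => ‖Mol Q lam Y d (σ + y * I)‖ₑ ^ 2 *
        ENNReal.ofReal (Real.exp (-|y - t|)) := by
      intro d
      have h4 : Continuous fun s : ℂ => Mol Q lam Y d s := by
        unfold Mol
        refine continuous_finsetSum _ fun h hh => ?_
        have hh1 := (Finset.mem_Icc.1 hh).1
        refine continuous_const.mul (continuous_const.cpow (by fun_prop) fun s => ?_)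
        exact Or.inl (by simpa using (by omega : 0 < h))
      have h5 : Continuous fun y : ℝ => Mol Q lam Y d (σ + y * I) := h4.comp (by fun_prop)
      have h6 : Measurable fun y : ℝ => ENNReal.ofReal (Real.exp (-|y - t|)) := by fun_prop
      exact ((h5.enorm.measurable).pow_const 2).mul h6
    have e2 : ∀ d ∈ sqf X, ∫⁻ y : ℝ, (‖T.Lq d (σ + y * I)‖ₑ ^ 2 +
        ‖Mol Q lam Y d (σ + y * I)‖ₑ ^ 2) * ENNReal.ofReal (Real.exp (-|y - t|)) ≤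
        ENNReal.ofReal (T.c ^ 2) *
          (∫⁻ y : ℝ, ‖T.ell d (σ + y * I)‖ₑ ^ 2 * ENNReal.ofReal (Real.exp (-|y - t|))) +
          ∫⁻ y : ℝ, ‖Mol Q lam Y d (σ + y * I)‖ₑ ^ 2 *
            ENNReal.ofReal (Real.exp (-|y - t|)) := by
      intro d hd
      simp_rw [add_mul]
      rw [lintegral_add_right _ (hmM d), ← lintegral_const_mul' _ _ ENNReal.ofReal_ne_top]
      refine add_le_add (lintegral_mono fun y => ?_) le_rfl
      have hre : ((σ : ℂ) + y * I).re = σ := by simp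
      simp only
      rw [← mul_assoc]
      exact mul_le_mul' (Lq_le T (sqf_sqf hd) (by rw [hre]; linarith)) le_rfl
    have e3 := h1 X σ t hX hσ0 hσ1
    have e4 : ∑ d ∈ sqf X, ∫⁻ y : ℝ, ‖Mol Q lam Y d (σ + y * I)‖ₑ ^ 2 *
          ENNReal.ofReal (Real.exp (-|y - t|)) ≤ ENNReal.ofReal (C2 * X * Real.log X ^ A2) * 2 := by
      refine (sum_lintegral_le _ _ _).trans ?_
      rw [← exp_shift t, ← lintegral_const_mul' _ _ ENNReal.ofReal_ne_top]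
      refine lintegral_mono fun y => ?_
      simp only
      rw [← Finset.sum_mul]
      gcongr
      have hre : ((σ : ℂ) + y * I).re = σ := by simp
      have h7 := h2 X Y (σ + y * I) hX hY hYX (by rw [hre]; linarith)
      have e : ∑ d ∈ sqf X, ‖Mol Q lam Y d (σ + y * I)‖ₑ ^ 2 =
          ENNReal.ofReal (∑ d ∈ sqf X, ‖Mol Q lam Y d (σ + y * I)‖ ^ 2) := by
        rw [ENNReal.ofReal_sum_of_nonneg (fun d _ => by positivity)]
        refine Finset.sum_congr rfl fun d _ => ?_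
        rw [ENNReal.ofReal_pow (norm_nonneg _), ofReal_norm]
      rw [e]
      apply ENNReal.ofReal_le_ofReal
      rw [hre, max_eq_left (by linarith), mul_zero, Real.rpow_zero, mul_one] at h7
      exact h7
    refine e1.trans ((Finset.sum_le_sum e2).trans ?_)
    rw [Finset.sum_add_distrib, ← Finset.mul_sum]
    calc _ ≤ ENNReal.ofReal (T.c ^ 2) *
            ENNReal.ofReal (C1 * (1 + |t|) ^ B * X * Real.log X ^ A1) +
          (ENNReal.ofReal (C2 * X * Real.log X ^ A2) * 2) := by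
          gcongr
      _ = ENNReal.ofReal (T.c ^ 2 * (C1 * (1 + |t|) ^ B * X * Real.log X ^ A1) +
          (C2 * X * Real.log X ^ A2 * 2)) := by
          rw [ENNReal.ofReal_add (by positivity) (by positivity),
            ENNReal.ofReal_mul (p := T.c ^ 2) (by positivity),
            ENNReal.ofReal_mul (p := C2 * X * Real.log X ^ A2) (by positivity)]
          norm_num
      _ ≤ _ := by
          apply ENNReal.ofReal_le_ofReal
          have h8 : Real.log X ^ A1 ≤ Real.log X ^ (A1 + A2) := pow_le_pow_right₀ hL (by omega)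
          have h9 : Real.log X ^ A2 ≤ Real.log X ^ (A1 + A2) := pow_le_pow_right₀ hL (by omega)
          calc T.c ^ 2 * (C1 * (1 + |t|) ^ B * X * Real.log X ^ A1) +
              (C2 * X * Real.log X ^ A2 * 2)
              ≤ T.c ^ 2 * (C1 * (1 + |t|) ^ B * X * Real.log X ^ (A1 + A2)) +
                (C2 * (X * 1) * Real.log X ^ (A1 + A2) * 2) := by rw [mul_one]; gcongr
            _ ≤ T.c ^ 2 * (C1 * (1 + |t|) ^ B * X * Real.log X ^ (A1 + A2)) +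
                (C2 * (X * (1 + |t|) ^ B) * Real.log X ^ (A1 + A2) * 2) := by gcongr
            _ = _ := by ring
  exact (ENNReal.ofReal_le_ofReal_iff (by positivity)).1 hb

end Pool.Agent.Y641.QTHZ3
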